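import Mathlib

set_option autoImplicit false

open Set Filter Topology Matrix

namespace Pool.Agent.Results.MP_2e17cf_an.KKTBelowLocalMinima

/-- The data of a CDT subproblem in dimension `n`. -/
structure CDT (n : ℕ) where
  Q : Matrix (Fin n) (Fin n) ℝ
  c : Fin n → ℝ
  A : Fin 2 → Matrix (Fin n) (Fin n) ℝ
  b : Fin 2 → Fin n → ℝ
  d : Fin 2 → ℝ
  symmQ : Q.IsSymm
  posA : ∀ i, (A i).PosDef

namespace CDT

variable {n : ℕ} (P : CDT n)

/-- The objective `x^T Q x / 2 + c^T x`. -/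
noncomputable def f (x : Fin n → ℝ) : ℝ := (1 / 2) * (x ⬝ᵥ P.Q.mulVec x) + P.c ⬝ᵥ x

/-- The constraint functions `x^T A_i x + 2 b_i^T x + d_i`. -/
noncomputable def g (i : Fin 2) (x : Fin n → ℝ) : ℝ :=
  x ⬝ᵥ (P.A i).mulVec x + 2 * (P.b i ⬝ᵥ x) + P.d i

/-- The feasible set `E_1 ∩ E_2`. -/
def F : Set (Fin n → ℝ) := {x | ∀ i, P.g i x ≤ 0}

/-- The gradient `2 A_i x + 2 b_i` of the constraint function. -/
noncomputable def gradg (i : Fin 2) (x : Fin n → ℝ) : Fin n → ℝ :=
  (2 : ℝ) • ((P.A i).mulVec x + P.b i)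

/-- KKT points. -/
def IsKKT (x : Fin n → ℝ) : Prop :=
  x ∈ P.F ∧ ∃ μ : Fin 2 → ℝ, (∀ i, 0 ≤ μ i) ∧
    P.Q.mulVec x + P.c + ∑ i, μ i • P.gradg i x = 0 ∧ ∀ i, μ i * P.g i x = 0

/-- Global minimizers. -/
def IsGlobal (x : Fin n → ℝ) : Prop := x ∈ P.F ∧ ∀ y ∈ P.F, P.f x ≤ P.f y

/-- Local nonglobal minimizers. -/
def IsLocalNonglobal (x : Fin n → ℝ) : Prop :=
  x ∈ P.F ∧ IsLocalMinOn P.f P.F x ∧ ∃ y ∈ P.F, P.f y < P.f x

end CDT

/-! ### The example -/

/-- `f = x - x² - y²` on the intersection of the ellipses `x²/4 + y² ≤ 1` and `x² + y²/4 ≤ 1`. -/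
noncomputable def ex : CDT 2 where
  Q := !![-2, 0; 0, -2]
  c := ![1, 0]
  A := ![!![1/4, 0; 0, 1], !![1, 0; 0, 1/4]]
  b := fun _ => 0
  d := fun _ => -1
  symmQ := by
    ext i j; fin_cases i <;> fin_cases j <;> rfl
  posA := by
    intro i
    fin_cases i
    · have h : (!![1/4, 0; 0, 1] : Matrix (Fin 2) (Fin 2) ℝ) = Matrix.diagonal ![1/4, 1] := by
        ext i j; fin_cases i <;> fin_cases j <;> simp [Matrix.diagonal]
      show (!![1/4, 0; 0, 1] : Matrix (Fin 2) (Fin 2) ℝ).PosDef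
      rw [h]
      apply Matrix.PosDef.diagonal
      intro i; fin_cases i <;> norm_num
    · have h : (!![1, 0; 0, 1/4] : Matrix (Fin 2) (Fin 2) ℝ) = Matrix.diagonal ![1, 1/4] := by
        ext i j; fin_cases i <;> fin_cases j <;> simp [Matrix.diagonal]
      show (!![1, 0; 0, 1/4] : Matrix (Fin 2) (Fin 2) ℝ).PosDef
      rw [h]
      apply Matrix.PosDef.diagonal
      intro i; fin_cases i <;> norm_num

lemma f_eq (x : Fin 2 → ℝ) : ex.f x = x 0 - x 0 ^ 2 - x 1 ^ 2 := by
  simp [CDT.f, ex, Matrix.mulVec, dotProduct, Fin.sum_univ_two]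
  ring

lemma g0_eq (x : Fin 2 → ℝ) : ex.g 0 x = x 0 ^ 2 / 4 + x 1 ^ 2 - 1 := by
  simp [CDT.g, ex, Matrix.mulVec, dotProduct, Fin.sum_univ_two]
  ring

lemma g1_eq (x : Fin 2 → ℝ) : ex.g 1 x = x 0 ^ 2 + x 1 ^ 2 / 4 - 1 := by
  simp [CDT.g, ex, Matrix.mulVec, dotProduct, Fin.sum_univ_two]
  ring

lemma mem_F (x : Fin 2 → ℝ) :
    x ∈ ex.F ↔ x 0 ^ 2 / 4 + x 1 ^ 2 ≤ 1 ∧ x 0 ^ 2 + x 1 ^ 2 / 4 ≤ 1 := by
  constructor
  · intro h
    have h0 := h 0
    have h1 := h 1
    rw [g0_eq] at h0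
    rw [g1_eq] at h1
    exact ⟨by linarith, by linarith⟩
  · rintro ⟨h0, h1⟩ i
    fin_cases i
    · show ex.g 0 x ≤ 0
      rw [g0_eq]; linarith
    · show ex.g 1 x ≤ 0
      rw [g1_eq]; linarith

/-- the corner coordinate `2/√5` -/
noncomputable def a : ℝ := 2 / Real.sqrt 5

lemma a_sq : a ^ 2 = 4 / 5 := by
  unfold a
  rw [div_pow, Real.sq_sqrt (by norm_num)]; norm_num

lemma a_pos : 0 < a := by unfold a; positivity

lemma a_gt : 0.89 < a := by
  by_contra h
  push Not at h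
  nlinarith [a_sq, a_pos]

lemma a_lt : a < 0.9 := by
  by_contra h
  push Not at h
  nlinarith [a_sq, a_pos]

/-- the lower bound of `f` on `F` -/
lemma f_ge {x : Fin 2 → ℝ} (hx : x ∈ ex.F) : -(8/5) - a ≤ ex.f x := by
  rw [mem_F] at hx
  rw [f_eq]
  obtain ⟨h0, h1⟩ := hx
  have ha := a_sq
  have hp := a_gt
  by_cases h : -a ≤ x 0
  · nlinarith
  · push Not at h
    have : 0 ≤ (-(x 0 + a)) * (-(3 * (x 0 - a) + 1)) := by
      apply mul_nonneg
      · linarith
      · linarith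
    nlinarith

lemma corner_cases {x : Fin 2 → ℝ} (h0 : x 0 ^ 2 / 4 + x 1 ^ 2 = 1) (h1 : x 0 ^ 2 + x 1 ^ 2 / 4 = 1) :
    (x 0 = a ∨ x 0 = -a) ∧ x 1 ^ 2 = 4 / 5 := by
  have e0 : x 0 ^ 2 = a ^ 2 := by rw [a_sq]; linarith
  exact ⟨sq_eq_sq_iff_eq_or_eq_neg.1 e0, by linarith⟩

/-- a local minimizer cannot be improved along a continuous curve in `F` starting at it -/
lemma no_descent {x : Fin 2 → ℝ} (hloc : IsLocalMinOn ex.f ex.F x) {γ : ℝ → Fin 2 → ℝ}
    (hγ : ContinuousAt γ 0) (hγ0 : γ 0 = x) (hF : ∀ᶠ h in 𝓝[>] (0:ℝ), γ h ∈ ex.F)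
    (hlt : ∀ᶠ h in 𝓝[>] (0:ℝ), ex.f (γ h) < ex.f x) : False := by
  have h1 : Tendsto γ (𝓝[>] 0) (𝓝[ex.F] x) := by
    apply tendsto_nhdsWithin_of_tendsto_nhds_of_eventually_within _ _ hF
    rw [← hγ0]
    exact hγ.tendsto.mono_left nhdsWithin_le_nhds
  have h2 := h1.eventually hloc
  obtain ⟨h, ha, hb⟩ := (h2.and hlt).exists
  exact absurd hb (not_lt.2 ha)

lemma eventually_small {P : ℝ → Prop} {ε : ℝ} (hε : 0 < ε) (h : ∀ t, 0 < t → t < ε → P t) :
    ∀ᶠ t in 𝓝[>] (0:ℝ), P t := by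
  have h1 : ∀ᶠ t in 𝓝[>] (0:ℝ), t ∈ Ioo (0:ℝ) ε := Ioo_mem_nhdsGT hε
  exact h1.mono fun t ht => h t ht.1 ht.2

/-- a local minimizer has both constraints active -/
lemma both_active {x : Fin 2 → ℝ} (hx : x ∈ ex.F) (hloc : IsLocalMinOn ex.f ex.F x) :
    x 0 ^ 2 / 4 + x 1 ^ 2 = 1 ∧ x 0 ^ 2 + x 1 ^ 2 / 4 = 1 := by
  have hx' := (mem_F x).1 hx
  -- second constraint active
  have hsecond : x 0 ^ 2 + x 1 ^ 2 / 4 = 1 := by
    by_contra hne
    have hlt : x 0 ^ 2 + x 1 ^ 2 / 4 < 1 := lt_of_le_of_ne hx'.2 hne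
    -- move along the level of the first constraint
    -- sign of the horizontal step
    obtain ⟨σ, hσ, hσx⟩ : ∃ σ : ℝ, (σ = 1 ∨ σ = -1) ∧ σ * (1 - 3 / 2 * x 0) ≤ 0 := by
      rcases le_total (1 - 3 / 2 * x 0) 0 with h | h
      · exact ⟨1, Or.inl rfl, by linarith⟩
      · exact ⟨-1, Or.inr rfl, by linarith⟩
    have hσ2 : σ ^ 2 = 1 := by rcases hσ with h | h <;> rw [h] <;> norm_num
    set K : ℝ := x 0 ^ 2 / 4 + x 1 ^ 2 with hK
    by_cases hy : x 1 = 0
    · -- then move horizontally and keep `y = 0`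
      have hx2 : x 0 ^ 2 < 1 := by rw [hy] at hlt; linarith
      obtain ⟨τ, hτ, hτx⟩ : ∃ τ : ℝ, (τ = 1 ∨ τ = -1) ∧ τ * (1 - 2 * x 0) ≤ 0 := by
        rcases le_total (1 - 2 * x 0) 0 with h | h
        · exact ⟨1, Or.inl rfl, by linarith⟩
        · exact ⟨-1, Or.inr rfl, by linarith⟩
      have hτ2 : τ ^ 2 = 1 := by rcases hτ with h | h <;> rw [h] <;> norm_num
      refine no_descent hloc (γ := fun h => ![x 0 + τ * h, 0]) ?_ ?_ ?_ ?_
      · apply Continuous.continuousAt
        apply continuous_pi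
        intro i; fin_cases i
        · show Continuous fun h => x 0 + τ * h
          fun_prop
        · exact continuous_const
      · ext i; fin_cases i
        · show x 0 + τ * 0 = x 0
          ring
        · exact hy.symm
      · have hc : ∀ᶠ h in 𝓝 (0:ℝ), (x 0 + τ * h) ^ 2 < 1 := by
          have : ContinuousAt (fun h : ℝ => (x 0 + τ * h) ^ 2) 0 := by fun_prop
          apply this.eventually (gt_mem_nhds _)
          simpa using hx2
        refine (hc.filter_mono nhdsWithin_le_nhds).mono fun h hh => ?_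
        rw [mem_F]
        simp only [Matrix.cons_val_zero, Matrix.cons_val_one]
        constructor <;> nlinarith [sq_nonneg (x 0 + τ * h)]
      · refine eventually_small one_pos fun h h0 _ => ?_
        rw [f_eq, f_eq]
        simp only [Matrix.cons_val_zero, Matrix.cons_val_one]
        rw [hy]
        have e : x 0 + τ * h - (x 0 + τ * h) ^ 2 - 0 ^ 2 =
            x 0 - x 0 ^ 2 + h * (τ * (1 - 2 * x 0)) - τ ^ 2 * h ^ 2 := by ring
        rw [e, hτ2]
        have : h * (τ * (1 - 2 * x 0)) ≤ 0 := mul_nonpos_of_nonneg_of_nonpos h0.le hτx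
        have : 0 < h ^ 2 := by positivity
        linarith
    · -- keep the first constraint value `K`
      set s : ℝ := if 0 < x 1 then 1 else -1 with hs
      have hs2 : s ^ 2 = 1 := by rw [hs]; split_ifs <;> norm_num
      have hsx : s * |x 1| = x 1 := by
        rw [hs]; split_ifs with h
        · rw [abs_of_pos h, one_mul]
        · rw [abs_of_nonpos (not_lt.1 h)]; ring
      set R : ℝ → ℝ := fun h => K - (x 0 + σ * h) ^ 2 / 4 with hR
      have hRc : Continuous R := by rw [hR]; fun_prop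
      have hR0 : R 0 = x 1 ^ 2 := by simp [hR, hK]
      have hR0pos : 0 < R 0 := by rw [hR0]; positivity
      have hRpos : ∀ᶠ h in 𝓝[>] (0:ℝ), 0 < R h :=
        (hRc.continuousAt.eventually (lt_mem_nhds hR0pos)).filter_mono nhdsWithin_le_nhds
      refine no_descent hloc (γ := fun h => ![x 0 + σ * h, s * Real.sqrt (R h)]) ?_ ?_ ?_ ?_
      · apply Continuous.continuousAt
        apply continuous_pi
        intro i; fin_cases i
        · show Continuous fun h => x 0 + σ * h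
          fun_prop
        · show Continuous fun h => s * Real.sqrt (R h)
          exact continuous_const.mul hRc.sqrt
      · ext i; fin_cases i
        · show x 0 + σ * 0 = x 0
          ring
        · show s * Real.sqrt (R 0) = x 1
          rw [hR0, Real.sqrt_sq_eq_abs, hsx]
      · have hc : ∀ᶠ h in 𝓝[>] (0:ℝ), (x 0 + σ * h) ^ 2 + R h / 4 < 1 := by
          have : Continuous (fun h : ℝ => (x 0 + σ * h) ^ 2 + R h / 4) := by fun_prop
          refine (this.continuousAt.eventually (gt_mem_nhds ?_)).filter_mono nhdsWithin_le_nhds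
          show (x 0 + σ * 0) ^ 2 + R 0 / 4 < 1
          rw [hR0]; simpa using hlt
        refine (hc.and hRpos).mono fun h hh => ?_
        rw [mem_F]
        simp only [Matrix.cons_val_zero, Matrix.cons_val_one]
        have e : (s * Real.sqrt (R h)) ^ 2 = R h := by
          rw [mul_pow, hs2, one_mul, Real.sq_sqrt hh.2.le]
        rw [e]
        constructor
        · simp only [hR]; linarith [hx'.1]
        · exact hh.1.le
      · refine (hRpos.and (eventually_small one_pos fun h h0 _ => h0)).mono fun h hh => ?_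
        rw [f_eq, f_eq]
        simp only [Matrix.cons_val_zero, Matrix.cons_val_one]
        have e : (s * Real.sqrt (R h)) ^ 2 = R h := by
          rw [mul_pow, hs2, one_mul, Real.sq_sqrt hh.1.le]
        rw [e]
        have e2 : x 0 + σ * h - (x 0 + σ * h) ^ 2 - R h =
            x 0 - x 0 ^ 2 - x 1 ^ 2 + h * (σ * (1 - 3 / 2 * x 0)) - 3 / 4 * (σ ^ 2 * h ^ 2) := by
          simp only [hR, hK]; ring
        rw [e2, hσ2]
        have h1 : h * (σ * (1 - 3 / 2 * x 0)) ≤ 0 := mul_nonpos_of_nonneg_of_nonpos hh.2.le hσx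
        have h2 : 0 < h ^ 2 := by have := hh.2; positivity
        linarith
  -- first constraint active: move along the second ellipse away from the axis
  refine ⟨?_, hsecond⟩
  by_contra hne
  have hlt : x 0 ^ 2 / 4 + x 1 ^ 2 < 1 := lt_of_le_of_ne hx'.1 hne
  have hy2 : x 1 ^ 2 < 4 / 5 := by linarith
  have hx2 : 4 / 5 < x 0 ^ 2 := by linarith
  have hx0 : x 0 ≠ 0 := by rintro h; rw [h] at hx2; norm_num at hx2
  obtain ⟨σ, hσ, hσy⟩ : ∃ σ : ℝ, (σ = 1 ∨ σ = -1) ∧ 0 ≤ σ * x 1 := by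
    rcases le_total 0 (x 1) with h | h
    · exact ⟨1, Or.inl rfl, by linarith⟩
    · exact ⟨-1, Or.inr rfl, by linarith⟩
  have hσ2 : σ ^ 2 = 1 := by rcases hσ with h | h <;> rw [h] <;> norm_num
  set s : ℝ := if 0 < x 0 then 1 else -1 with hs
  have hs2 : s ^ 2 = 1 := by rw [hs]; split_ifs <;> norm_num
  have hsle : |s| ≤ 1 := by rw [hs]; split_ifs <;> norm_num
  have hsx : s * |x 0| = x 0 := by
    rw [hs]; split_ifs with h
    · rw [abs_of_pos h, one_mul]
    · rw [abs_of_nonpos (not_lt.1 h)]; ring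
  set R : ℝ → ℝ := fun h => 1 - (x 1 + σ * h) ^ 2 / 4 with hR
  have hRc : Continuous R := by rw [hR]; fun_prop
  have hR0 : R 0 = x 0 ^ 2 := by simp only [hR, mul_zero, add_zero]; linarith
  have hRpos : ∀ᶠ h in 𝓝[>] (0:ℝ), 4 / 5 < R h := by
    refine (hRc.continuousAt.eventually (lt_mem_nhds ?_)).filter_mono nhdsWithin_le_nhds
    rw [hR0]; exact hx2
  refine no_descent hloc (γ := fun h => ![s * Real.sqrt (R h), x 1 + σ * h]) ?_ ?_ ?_ ?_
  · apply Continuous.continuousAt
    apply continuous_pi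
    intro i; fin_cases i
    · show Continuous fun h => s * Real.sqrt (R h)
      exact continuous_const.mul hRc.sqrt
    · show Continuous fun h => x 1 + σ * h
      fun_prop
  · ext i; fin_cases i
    · show s * Real.sqrt (R 0) = x 0
      rw [hR0, Real.sqrt_sq_eq_abs, hsx]
    · show x 1 + σ * 0 = x 1
      ring
  · have hc : ∀ᶠ h in 𝓝[>] (0:ℝ), R h / 4 + (x 1 + σ * h) ^ 2 < 1 := by
      have : Continuous (fun h : ℝ => R h / 4 + (x 1 + σ * h) ^ 2) := by fun_prop
      refine (this.continuousAt.eventually (gt_mem_nhds ?_)).filter_mono nhdsWithin_le_nhds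
      show R 0 / 4 + (x 1 + σ * 0) ^ 2 < 1
      rw [hR0]; simpa using hlt
    refine (hc.and hRpos).mono fun h hh => ?_
    rw [mem_F]
    simp only [Matrix.cons_val_zero, Matrix.cons_val_one]
    have e : (s * Real.sqrt (R h)) ^ 2 = R h := by
      rw [mul_pow, hs2, one_mul, Real.sq_sqrt (by linarith [hh.2])]
    rw [e]
    constructor
    · exact hh.1.le
    · simp only [hR]; linarith
  · refine (hRpos.and (eventually_small one_pos fun h h0 _ => h0)).mono fun h hh => ?_
    rw [f_eq, f_eq]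
    simp only [Matrix.cons_val_zero, Matrix.cons_val_one]
    have hRh : 0 ≤ R h := by linarith [hh.1]
    have e : (s * Real.sqrt (R h)) ^ 2 = R h := by
      rw [mul_pow, hs2, one_mul, Real.sq_sqrt hRh]
    rw [e]
    -- compare the linear terms
    set r : ℝ := Real.sqrt (R h) with hr
    have hr2 : r ^ 2 = R h := Real.sq_sqrt hRh
    have hr0 : 0.89 < r := by
      by_contra hcon
      push Not at hcon
      have : 0 ≤ r := Real.sqrt_nonneg _
      nlinarith [hh.1]
    have hX : 0.89 < |x 0| := by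
      by_contra hcon
      push Not at hcon
      nlinarith [sq_abs (x 0), abs_nonneg (x 0)]
    have hX2 : |x 0| ^ 2 = x 0 ^ 2 := sq_abs _
    set D : ℝ := (x 1 + σ * h) ^ 2 - x 1 ^ 2 with hD
    have hDpos : 0 < D := by
      have e : D = 2 * h * (σ * x 1) + σ ^ 2 * h ^ 2 := by rw [hD]; ring
      rw [e, hσ2]
      have : 0 ≤ 2 * h * (σ * x 1) := mul_nonneg (by linarith [hh.2]) hσy
      have : 0 < h ^ 2 := by have := hh.2; positivity
      linarith
    have e1 : |x 0| ^ 2 - r ^ 2 = D / 4 := by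
      rw [hr2, hX2, hD]; simp only [hR]; linarith
    have e2 : (|x 0| - r) * (|x 0| + r) = D / 4 := by rw [← e1]; ring
    have hge : 0 ≤ |x 0| - r := by
      by_contra hcon
      push Not at hcon
      have : (|x 0| - r) * (|x 0| + r) < 0 := mul_neg_of_neg_of_pos hcon (by linarith)
      linarith
    have hle : |x 0| - r ≤ D / 4 := by
      rw [← e2]
      exact le_mul_of_one_le_right hge (by linarith)
    have hlin : s * r - x 0 ≤ |x 0| - r := by
      have : s * r - x 0 = -(s * (|x 0| - r)) := by rw [mul_sub, hsx]; ring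
      rw [this]
      have h3 : |s * (|x 0| - r)| ≤ |x 0| - r := by
        rw [abs_mul, abs_of_nonneg hge]
        exact mul_le_of_le_one_left hge hsle
      linarith [neg_le_abs (s * (|x 0| - r))]
    have e3 : R h = x 0 ^ 2 - D / 4 := by rw [hD]; simp only [hR]; linarith
    have e4 : (x 1 + σ * h) ^ 2 = x 1 ^ 2 + D := by rw [hD]; ring
    rw [e3, e4]
    linarith

/-- Some CDT subproblem has a local nonglobal minimizer and a KKT point, not a global minimizer,
whose value is smaller than the infimum of the local nonglobal minimum values. -/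
theorem result : ∃ (n : ℕ) (P : CDT n), 1 ≤ n ∧ P.F.Nonempty ∧ (∃ x, P.IsLocalNonglobal x) ∧
    ∃ v : ℝ, IsGLB (P.f '' {x | P.IsLocalNonglobal x}) v ∧
      ∃ x, P.IsKKT x ∧ ¬ P.IsGlobal x ∧ P.f x < v := by
  have ha := a_sq
  have ha1 := a_gt
  have ha2 := a_lt
  have hLF : (![-a, a] : Fin 2 → ℝ) ∈ ex.F := by
    rw [mem_F]; simp only [Matrix.cons_val_zero, Matrix.cons_val_one]
    constructor <;> nlinarith
  have hLf : ex.f ![-a, a] = -(8/5) - a := by
    rw [f_eq]; simp only [Matrix.cons_val_zero, Matrix.cons_val_one]; nlinarith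
  have hRF : (![a, a] : Fin 2 → ℝ) ∈ ex.F := by
    rw [mem_F]; simp only [Matrix.cons_val_zero, Matrix.cons_val_one]
    constructor <;> nlinarith
  have hRf : ex.f ![a, a] = -(8/5) + a := by
    rw [f_eq]; simp only [Matrix.cons_val_zero, Matrix.cons_val_one]; nlinarith
  have hRloc : ex.IsLocalNonglobal ![a, a] := by
    refine ⟨hRF, ?_, ![-a, a], hLF, by rw [hLf, hRf]; linarith⟩
    -- near the right corner
    have hnear : ∀ᶠ y in 𝓝[ex.F] (![a, a] : Fin 2 → ℝ), a - 0.4 < y 0 := by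
      have : ContinuousAt (fun y : Fin 2 → ℝ => y 0) ![a, a] := (continuous_apply 0).continuousAt
      refine (this.eventually (lt_mem_nhds ?_)).filter_mono nhdsWithin_le_nhds
      simp only [Matrix.cons_val_zero]; linarith
    have hmem : ∀ᶠ y in 𝓝[ex.F] (![a, a] : Fin 2 → ℝ), y ∈ ex.F := self_mem_nhdsWithin
    refine (hnear.and hmem).mono fun y hy => ?_
    rw [hRf, f_eq]
    obtain ⟨h0, h1⟩ := (mem_F y).1 hy.2
    have hy0 := hy.1
    set u : ℝ := y 0 - a with hu
    set v : ℝ := y 1 - a with hv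
    have e0 : y 0 = a + u := by rw [hu]; ring
    have e1 : y 1 = a + v := by rw [hv]; ring
    rw [e0, e1] at h0 h1 ⊢
    have c0 : a / 2 * u + 2 * a * v + u ^ 2 / 4 + v ^ 2 ≤ 0 := by nlinarith
    have c1 : 2 * a * u + a / 2 * v + u ^ 2 + v ^ 2 / 4 ≤ 0 := by nlinarith
    have goal' : 0 ≤ (1 - 2 * a) * u - 2 * a * v - u ^ 2 - v ^ 2 := by
      rcases le_total 0 u with h | h
      · nlinarith [mul_nonneg a_pos.le h, sq_nonneg u]
      · have hu4 : -0.4 < u := by linarith
        have : 0 ≤ (-u) * ((3 / 2 * a - 1) - 3 / 4 * (-u)) := by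
          apply mul_nonneg (by linarith)
          linarith
        nlinarith
    nlinarith
  have hval : ∀ x, ex.IsLocalNonglobal x → ex.f x = -(8/5) + a := by
    rintro x ⟨hx, hloc, y, hy, hlt⟩
    obtain ⟨h0, h1⟩ := both_active hx hloc
    obtain ⟨hc, hy2⟩ := corner_cases h0 h1
    rw [f_eq, hy2]
    rcases hc with h | h
    · rw [h]; nlinarith
    · exfalso
      have h3 := f_ge hy
      rw [f_eq x, hy2, h] at hlt
      nlinarith
  refine ⟨2, ex, by norm_num, ⟨_, hRF⟩, ⟨_, hRloc⟩, -(8/5) + a, ?_, ![-1, 0], ?_, ?_, ?_⟩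
  · have : ex.f '' {x | ex.IsLocalNonglobal x} = {-(8/5) + a} := by
      ext r
      constructor
      · rintro ⟨x, hx, rfl⟩
        exact hval x hx
      · rintro hr
        exact ⟨_, hRloc, by rw [hRf]; exact hr.symm⟩
    rw [this]
    exact isGLB_singleton
  · refine ⟨?_, ![0, 3/2], ?_, ?_, ?_⟩
    · rw [mem_F]; simp only [Matrix.cons_val_zero, Matrix.cons_val_one]; norm_num
    · intro i; fin_cases i <;> norm_num
    · rw [Fin.sum_univ_two]
      ext i
      fin_cases i <;> simp [ex, CDT.gradg, Matrix.vecHead, Matrix.vecTail] <;> norm_num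
    · intro i
      fin_cases i
      · show (0:ℝ) * _ = 0
        rw [zero_mul]
      · show (3/2 : ℝ) * ex.g 1 ![-1, 0] = 0
        rw [g1_eq]; simp only [Matrix.cons_val_zero, Matrix.cons_val_one]; norm_num
  · rintro ⟨_, h⟩
    have := h _ hLF
    rw [hLf, f_eq] at this
    simp only [Matrix.cons_val_zero, Matrix.cons_val_one] at this
    linarith
  · rw [f_eq]
    simp only [Matrix.cons_val_zero, Matrix.cons_val_one]
    linarith

end Pool.Agent.Results.MP_2e17cf_an.KKTBelowLocalMinima
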